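import Pool.Agent.helper56.CY.Spec

namespace Pool.Agent.CY
open Finset CT

lemma BAS_N {V : Type} [DecidableEq V] (S : Finset V) (c : V × Fin 4 → ℕ) :
    ((dts S).filter fun d => c d ≠ 0).card =
      ∑ w ∈ Wt S c, ((univ : Finset (Fin 4)).filter fun l => c (w, l) ≠ 0).card := by
  rw [Finset.card_filter]
  unfold dts
  rw [Finset.sum_product]
  have h1 : ∀ u ∈ S, (∑ l : Fin 4, if c (u, l) ≠ 0 then 1 else 0) =
      ((univ : Finset (Fin 4)).filter fun l => c (u, l) ≠ 0).card := by
    intro u _
    rw [Finset.card_filter]
  rw [Finset.sum_congr rfl h1]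
  unfold Wt
  symm
  apply Finset.sum_subset (Finset.filter_subset _ _)
  intro u hu hn
  rw [Finset.card_eq_zero, Finset.filter_eq_empty_iff]
  intro l _ hl
  exact hn (Finset.mem_filter.mpr ⟨hu, l, hl⟩)

lemma BAS_ev {V : Type} (c : V × Fin 4 → ℕ) (w : V) :
    ((univ : Finset (Fin 4)).filter fun l => c (w, l) ≠ 0).card ≤ 4 := by
  have := Finset.card_filter_le (univ : Finset (Fin 4)) (fun l => c (w, l) ≠ 0)
  simpa using this

theorem BAS (hSIX : SIX_stmt) (hDEG : DEG_stmt) : BAS_stmt := by
  intro V _ S e c hn hact hsmp hev hhyp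
  obtain ⟨h0, hnb, hW⟩ := hhyp
  -- counting
  have hcls : ∀ m ∈ (dts S).image c, 6 ≤ ((dts S).filter fun d => c d = m).card := by
    intro m hm
    obtain ⟨d, hd, hdm⟩ := Finset.mem_image.mp hm
    exact (hSIX V S e c m hact hsmp hev ⟨d, hd, hdm⟩).2
  have hD : (dts S).card = 4 * S.card := by
    unfold dts
    rw [Finset.card_product]
    simp [mul_comm]
  have hsum : (dts S).card = ∑ m ∈ (dts S).image c, ((dts S).filter fun d => c d = m).card :=
    Finset.card_eq_sum_card_image c (dts S)
  have hsum2 : (dts S).card = ((dts S).filter fun d => c d = 0).card +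
      ∑ m ∈ ((dts S).image c).erase 0, ((dts S).filter fun d => c d = m).card := by
    rw [hsum]
    exact (Finset.add_sum_erase _ _ h0).symm
  have hN0 : ((dts S).filter fun d => c d = 0).card + ((dts S).filter fun d => c d ≠ 0).card =
      (dts S).card := Finset.card_filter_add_card_filter_not (fun d => c d = 0)
  have hz : 6 ≤ ((dts S).filter fun d => c d = 0).card := hcls 0 h0
  have h6 : 6 * nb S c ≤ ∑ m ∈ ((dts S).image c).erase 0,
      ((dts S).filter fun d => c d = m).card := by
    unfold nb
    have := Finset.card_nsmul_le_sum (((dts S).image c).erase 0)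
      (fun m => ((dts S).filter fun d => c d = m).card) 6
      (fun m hm => hcls m (Finset.mem_of_mem_erase hm))
    rw [smul_eq_mul, mul_comm] at this
    exact this
  have hNW := BAS_N S c
  set N := ((dts S).filter fun d => c d ≠ 0).card with hNdef
  have h6N : 6 * nb S c ≤ N := by omega
  have hNn : N + 6 ≤ 4 * S.card := by omega
  have hWS : Wt S c ⊆ S := Finset.filter_subset _ _
  have hxn : (Wt S c).card ≤ S.card := Finset.card_le_card hWS
  have hdeg := fun w hw => hDEG V S e c w hact hsmp hev hw
  have hxb : (Wt S c).card ≤ 2 * nb S c := by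
    have : 0 ≤ (if Wt S c = S then 1 else 0 : ℕ) := Nat.zero_le _
    omega
  -- a general bound
  have hbound : ∀ B : ℕ, (∀ w ∈ Wt S c,
      ((univ : Finset (Fin 4)).filter fun l => c (w, l) ≠ 0).card ≤ B) →
      N ≤ (Wt S c).card * B := by
    intro B hB
    rw [hNW]
    have := Finset.sum_le_card_nsmul (Wt S c)
      (fun w => ((univ : Finset (Fin 4)).filter fun l => c (w, l) ≠ 0).card) B hB
    rwa [smul_eq_mul] at this
  by_cases hx4 : (Wt S c).card ≤ 4
  · by_cases hx2 : (Wt S c).card ≤ 2
    · have hB := hbound 0 (by
        intro w hw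
        obtain ⟨⟨r, hr⟩, h2⟩ := hdeg w hw
        omega)
      omega
    · have hB := hbound 2 (by
        intro w hw
        obtain ⟨⟨r, hr⟩, h2⟩ := hdeg w hw
        omega)
      have h3 : (Wt S c).card = 3 ∨ (Wt S c).card = 4 := by omega
      rcases h3 with h3 | h3 <;> rw [h3] at hB hxb <;> omega
  · by_cases hWeq : Wt S c = S
    · rw [if_pos hWeq, hWeq] at hW
      rcases hn with hn | hn <;> rw [hn] at hW hNn <;> omega
    · have hlt : (Wt S c).card < S.card :=
        Finset.card_lt_card (Finset.ssubset_iff_subset_ne.mpr ⟨hWS, hWeq⟩)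
      have hn6 : S.card = 6 := by omega
      have hx5 : (Wt S c).card = 5 := by omega
      obtain ⟨o, hoS, hoW⟩ := Finset.exists_of_ssubset
        (Finset.ssubset_iff_subset_ne.mpr ⟨hWS, hWeq⟩)
      have hWe : Wt S c = S.erase o := by
        apply Finset.eq_of_subset_of_card_le
        · intro w hw
          rw [Finset.mem_erase]
          refine ⟨?_, hWS hw⟩
          rintro rfl
          exact hoW hw
        · rw [Finset.card_erase_of_mem hoS]
          omega
      have hco : ∀ l, c (o, l) = 0 := by
        intro l
        by_contra hl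
        exact hoW (Finset.mem_filter.mpr ⟨hoS, l, hl⟩)
      have hin : ∀ l, (e (o, l)).1 ∈ Wt S c := by
        intro l
        rw [hWe, Finset.mem_erase]
        refine ⟨hsmp.1 o hoS l, ?_⟩
        have ha : e (o, l) ≠ (o, l) := by
          rw [hact.2]
          unfold dts
          simp [hoS]
        have hb : e (e (o, l)) ≠ e (o, l) := by
          intro hh
          rw [hact.1] at hh
          exact ha hh.symm
        have hc := (hact.2 (e (o, l))).mp hb
        unfold dts at hc
        exact (Finset.mem_product.mp hc).1
      set T : Finset V := (univ : Finset (Fin 4)).image fun l => (e (o, l)).1 with hT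
      have hTc : T.card = 4 := by
        rw [hT, Finset.card_image_of_injective]
        · simp
        · intro i j hij
          exact hsmp.2 o hoS i j hij
      have hTW : T ⊆ Wt S c := by
        intro w hw
        rw [hT, Finset.mem_image] at hw
        obtain ⟨l, _, rfl⟩ := hw
        exact hin l
      have hT2 : ∀ w ∈ T, ((univ : Finset (Fin 4)).filter fun l => c (w, l) ≠ 0).card ≤ 2 := by
        intro w hw
        have hwW := hTW hw
        rw [hT, Finset.mem_image] at hw
        obtain ⟨l, _, rfl⟩ := hw
        obtain ⟨⟨r, hr⟩, _⟩ := hdeg _ hwW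
        have hc0 : c ((e (o, l)).1, (e (o, l)).2) = 0 := by
          have : c (e (o, l)) = 0 := by rw [hev.1, hco]
          exact this
        have hlt4 : ((univ : Finset (Fin 4)).filter
            fun l' => c ((e (o, l)).1, l') ≠ 0).card < 4 := by
          have h4 : (univ : Finset (Fin 4)).card = 4 := by simp
          refine lt_of_lt_of_eq ?_ h4
          apply Finset.card_lt_card
          rw [Finset.ssubset_iff_of_subset (Finset.subset_univ _)]
          refine ⟨(e (o, l)).2, Finset.mem_univ _, ?_⟩
          rw [Finset.mem_filter]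
          rintro ⟨_, h⟩
          exact h hc0
        omega
      have hN12 : N ≤ 12 := by
        rw [hNW, ← Finset.sum_sdiff hTW]
        have h1 := Finset.sum_le_card_nsmul (Wt S c \ T)
          (fun w => ((univ : Finset (Fin 4)).filter fun l => c (w, l) ≠ 0).card) 4
          (fun w _ => BAS_ev c w)
        have h2 := Finset.sum_le_card_nsmul T
          (fun w => ((univ : Finset (Fin 4)).filter fun l => c (w, l) ≠ 0).card) 2 hT2
        rw [smul_eq_mul, Finset.card_sdiff_of_subset hTW, hx5, hTc] at h1
        rw [smul_eq_mul, hTc] at h2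
        omega
      omega

end Pool.Agent.CY
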